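import Pool.Agent.PPA.V9
import Pool.Agent.PPS.Fld

set_option autoImplicit false

open NumberField Ideal IsDedekindDomain
open scoped Real Classical

/-!
# [PPA-V10] The 2-part of the conjecture of Birch and Swinnerton-Dyer for the curves with `tau = 1` (helper47)
-/

namespace PP

section
variable {K : Type} [Field K] [NumberField K]

/-- THEOREM: if `tau = 1`, then the 2-part of the strong conjecture holds (with rank and analytic rank zero). -/
theorem twoPart (F : Fld K) {δ : 𝓞 K} (h : F.Good δ) (ht : tau F.arc dl (supp δ) = 1)
    (C : WeierstrassCurve.VariableChange K) : SBSD2.TwoPartRankZero (C • F.curve δ) := by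
  obtain ⟨h1, h2⟩ := F.selTriv_of_tau h ht
  obtain ⟨Z, q, hZ, -, hq, hq2, ha⟩ := PPA.analytic_F F h ht
  exact PPS.main h h1 h2 C rfl (hZ C) hq hq2 ha

end

end PP
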